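import Pool.Agent.MP_c2bc14_gt.H38.Step

set_option autoImplicit false

open Set Filter Topology Cardinal

namespace Pool.Agent.MP_c2bc14_gt.H38

theorem exists_omega1 : ∃ (W : Type) (_ : LinearOrder W) (_ : WellFoundedLT W), #W ≤ 𝔠 ∧
    (∀ j : W, (Iio j).Countable) ∧ ∀ S : Set W, S.Countable → ∃ j, ∀ i ∈ S, i < j := by
  have h1 : ∀ j : (ℵ₁ : Cardinal.{0}).ord.ToType, (Iio j).Countable := fun j => by
    rw [countable_iff_lt_aleph_one]
    simpa using mk_Iio_lt j
  refine ⟨(ℵ₁ : Cardinal.{0}).ord.ToType, inferInstance, inferInstance, ?_, h1, ?_⟩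
  · simpa using aleph_one_le_continuum
  · intro S hS
    by_contra hcon
    push Not at hcon
    have h2 : (Set.univ : Set (ℵ₁ : Cardinal.{0}).ord.ToType).Countable := by
      refine Set.Countable.mono (s₂ := ⋃ i ∈ S, insert i (Iio i)) ?_
        (hS.biUnion fun i _ => (h1 i).insert i)
      intro j _
      obtain ⟨i, hi, hji⟩ := hcon j
      exact mem_biUnion hi (hji.eq_or_lt)
    rw [countable_iff_lt_aleph_one] at h2
    simp at h2

variable {X : Type} [TopologicalSpace X]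

theorem exists_good_chain [CompactSpace X] [T2Space X] (hX : Split X) {I : Type} [LinearOrder I]
    [WellFoundedLT I] (D₀ : I → Set X) (hD₀ : ∀ a, #(D₀ a) ≤ bd a) :
    ∃ (D : I → Set X) (F : I → Set C(X, ℝ)), (∀ a, D₀ a ⊆ D a) ∧ (∀ a, #(D a) ≤ bd a) ∧
      ∀ L : Set I, IsLowerSet L → L.Nonempty → Good (U D L) (U F L) := by
  obtain ⟨W, _, _, hWc, hWi, hWb⟩ := exists_omega1
  choose T hT1 hT2 hT3 hT4 hT5 using exists_improve (I := I) hX
  let σ : W → (I → Set X) × (I → Set C(X, ℝ)) := WellFoundedLT.fix fun j rec =>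
    T (fun a => D₀ a ∪ ⋃ i : Iio j, (rec i.1 i.2).1 a, fun a => ⋃ i : Iio j, (rec i.1 i.2).2 a)
  let P : W → (I → Set X) × (I → Set C(X, ℝ)) := fun j =>
    (fun a => D₀ a ∪ ⋃ i : Iio j, (σ i.1).1 a, fun a => ⋃ i : Iio j, (σ i.1).2 a)
  have hσ : ∀ j, σ j = T (P j) := fun j => WellFoundedLT.fix_eq _ j
  have hP1 : ∀ i j, i < j → ∀ a, (σ i).1 a ⊆ (P j).1 a := fun i j hij a x hx =>
    Or.inr (mem_iUnion.2 ⟨⟨i, hij⟩, hx⟩)
  have hP2 : ∀ i j, i < j → ∀ a, (σ i).2 a ⊆ (P j).2 a := fun i j hij a x hx =>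
    mem_iUnion.2 ⟨⟨i, hij⟩, hx⟩
  have hsm : ∀ j a, #((σ j).1 a) ≤ bd a ∧ #((σ j).2 a) ≤ bd a := by
    intro j
    induction j using WellFoundedLT.induction with
    | ind j ih =>
      rw [hσ]
      apply hT3
      intro a
      have h0 := aleph0_le_bd a
      have h1 : #(Iio j) ≤ bd a := (le_aleph0_iff_set_countable.2 (hWi j)).trans h0
      exact ⟨mk_union_le_of h0 (hD₀ a) (mk_iUnion_le_of _ h0 h1 fun i => (ih i.1 i.2 a).1),
        mk_iUnion_le_of _ h0 h1 fun i => (ih i.1 i.2 a).2⟩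
  obtain ⟨j₀, -⟩ := hWb ∅ countable_empty
  refine ⟨fun a => ⋃ j, (σ j).1 a, fun a => ⋃ j, (σ j).2 a, ?_, ?_, ?_⟩
  · intro a x hx
    refine mem_iUnion.2 ⟨j₀, ?_⟩
    rw [hσ]
    exact hT1 _ a (Or.inl hx)
  · intro a
    exact mk_iUnion_le_of _ (aleph0_le_bd a) (hWc.trans (le_max_right _ _)) fun j => (hsm j a).1
  · intro L hL hLne
    constructor
    · intro x hx y hy hg
      obtain ⟨u, hu, hul⟩ := hX.frechet hx
      obtain ⟨v, hv, hvl⟩ := hX.frechet hy
      choose a haL ha using fun n => mem_U.1 (hu n)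
      choose c hcL hc using fun n => mem_U.1 (hv n)
      choose i hi using fun n => mem_iUnion.1 (ha n)
      choose i' hi' using fun n => mem_iUnion.1 (hc n)
      obtain ⟨j, hj⟩ := hWb (range i ∪ range i') ((countable_range i).union (countable_range i'))
      have hx' : x ∈ closure (U (P j).1 L) :=
        mem_closure_of_tendsto hul (Eventually.of_forall fun n =>
          mem_U.2 ⟨a n, haL n, hP1 _ _ (hj _ (Or.inl ⟨n, rfl⟩)) _ (hi n)⟩)
      have hy' : y ∈ closure (U (P j).1 L) :=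
        mem_closure_of_tendsto hvl (Eventually.of_forall fun n =>
          mem_U.2 ⟨c n, hcL n, hP1 _ _ (hj _ (Or.inr ⟨n, rfl⟩)) _ (hi' n)⟩)
      refine hT4 (P j) L hL x hx' y hy' fun g hgU => hg g ?_
      refine U_mono_left (fun a g' hg' => mem_iUnion.2 ⟨j, ?_⟩) L hgU
      rw [hσ]
      exact hg'
    · intro x G hG ε hε
      have h1 : ∀ g : G, ∃ a ∈ L, ∃ i, g.1 ∈ (σ i).2 a := by
        intro g
        obtain ⟨a, haL, ha⟩ := mem_U.1 (hG g.2)
        obtain ⟨i, hi⟩ := mem_iUnion.1 ha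
        exact ⟨a, haL, i, hi⟩
      choose a haL i hi using h1
      obtain ⟨j, hj⟩ := hWb (range i) (countable_range i)
      obtain ⟨m, hmL, hm⟩ : ∃ m ∈ L, ∀ g, a g ≤ m := by
        rcases isEmpty_or_nonempty G with hE | hE
        · obtain ⟨m, hm⟩ := hLne
          exact ⟨m, hm, fun g => hE.elim g⟩
        · obtain ⟨g, hg⟩ := Finite.exists_max a
          exact ⟨a g, haL g, hg⟩
      obtain ⟨d, hd, hdd⟩ := hT5 (P j) m x G (fun g hg =>
        mem_U.2 ⟨a ⟨g, hg⟩, hm _, hP2 _ _ (hj _ ⟨⟨g, hg⟩, rfl⟩) _ (hi ⟨g, hg⟩)⟩) ε hε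
      refine ⟨d, mem_U.2 ⟨m, hmL, mem_iUnion.2 ⟨j, ?_⟩⟩, hdd⟩
      rw [hσ]
      exact hd

theorem cor_of_dense (μ : Cardinal.{0}) : ∀ (X : Type) [TopologicalSpace X] [CompactSpace X]
    [T2Space X], Split X → ∀ D : Set X, Dense D → #D ≤ μ → Cor X := by
  induction μ using WellFoundedLT.induction with
  | ind μ ih =>
    intro X _ _ _ hX D hD hDμ
    by_cases hμ : μ ≤ 𝔠
    · exact hX.cor_of_small hD (hDμ.trans hμ)
    push Not at hμ
    have hω : ℵ₀ ≤ μ := aleph0_le_continuum.trans hμ.le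
    have hI : #(μ.ord.ToType) = μ := by simp
    have hne : Nonempty μ.ord.ToType := by
      rw [← mk_ne_zero_iff, hI]
      exact (aleph0_pos.trans_le hω).ne'
    obtain ⟨b, -, hb⟩ := WellFounded.has_min (wellFounded_lt (α := μ.ord.ToType)) Set.univ
      univ_nonempty
    obtain ⟨e⟩ : #D ≤ #(μ.ord.ToType) := hI.symm ▸ hDμ
    obtain ⟨D', F, h1, h2, h3⟩ := exists_good_chain hX
      (fun a : μ.ord.ToType => {x | ∃ h : x ∈ D, e ⟨x, h⟩ = a}) (by
        intro a
        refine le_trans ?_ (one_le_aleph0.trans (aleph0_le_bd a))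
        rw [mk_le_one_iff_set_subsingleton]
        rintro x ⟨hx, hxa⟩ y ⟨hy, hya⟩
        exact congrArg Subtype.val (e.injective (hxa.trans hya.symm)))
    refine cor_of_chain hX b (fun a => not_lt.1 (hb a trivial)) D' F h3 ?_ ?_
    · refine hD.mono fun x hx => mem_U.2 ⟨e ⟨x, hx⟩, trivial, h1 _ ⟨hx, rfl⟩⟩
    · intro a
      have hlt : bd a < μ := by
        refine max_lt ?_ hμ
        have h4 : #(Iio a) < μ := by simpa using mk_Iio_lt a
        rw [← Iio_insert]
        refine (mk_insert_le).trans_lt ?_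
        exact add_lt_of_lt hω h4 (one_lt_aleph0.trans_le hω)
      have : CompactSpace (closure (U D' (Iic a))) :=
        isCompact_iff_compactSpace.1 isClosed_closure.isCompact
      refine ih (bd a) hlt _ (hX.subtype _) (Subtype.val ⁻¹' (U D' (Iic a))) ?_ ?_
      · rw [Subtype.dense_iff, Subtype.image_preimage_coe, inter_eq_right.2 subset_closure]
      · exact (mk_preimage_of_injective _ _ Subtype.val_injective).trans (mk_U_Iic_le h2 a)

/-- A compact Hausdorff space splittable over Sigma-products of lines is Corson compact. -/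
theorem Split.cor [CompactSpace X] [T2Space X] (hX : Split X) : Cor X :=
  cor_of_dense _ X hX Set.univ dense_univ le_rfl

end Pool.Agent.MP_c2bc14_gt.H38
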